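import Mathlib

/-!
# A connected noninvolutory quandle with two good involutions
-/

namespace Pool.Agent.Results.MP_f5f603_al.TwoGoodInvolutions

/-- The quandle axioms for the operation `op x y = x * y`. -/
def IsQuandle {R : Type} (op : R → R → R) : Prop :=
  (∀ x, op x x = x) ∧ (∀ y, Function.Bijective fun x => op x y) ∧
    ∀ x y z, op (op x y) z = op (op x z) (op y z)

/-- The group generated by the right translations acts transitively. -/
def IsConnected {R : Type} (op : R → R → R) : Prop :=
  ∀ x y : R, ∃ g ∈ Subgroup.closure {g : Equiv.Perm R | ∃ z, ∀ w, g w = op w z}, g x = y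

/-- All right translations are involutions (or the identity). -/
def IsInvolutory {R : Type} (op : R → R → R) : Prop := ∀ x y, op (op x y) y = x

/-- `ρ` is a good involution: it is an involution, commutes with all right translations and the
right translation by `ρ y` is the inverse of the right translation by `y`. -/
def IsGoodInvolution {R : Type} (op : R → R → R) (ρ : R → R) : Prop :=
  (∀ x, ρ (ρ x) = x) ∧ (∀ x y, ρ (op x y) = op (ρ x) y) ∧
    ∀ x y, op (op x (ρ y)) y = x ∧ op (op x y) (ρ y) = x

/-- The multiplication table: conjugation in the class of all signed permutation matrices of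
degree four consisting of a negative transposition and the diagonal entries `1, -1`. -/
def code : ℕ := 686678196316196923687246837641488102984042900632595049223065315847647932744573524236069720278792589915582353333773275821000573738756144539621198550885547465689190132957165100864704158095050812692320872933611506548931765396892948076772305953478631945969663811432443257160543653250922448347820528597449410104946574199367166140491082876733425301887510444545471412322529014360369014757953206508401049225497346756252601790280233266777063634704764688489747972198656608380375388822261703217999934191459551219911725057900634866137507701882564924786252241247531231872408984318266906778203004982815386653101557185281168796246259591931083613617433569662743251969347434468639099687587817985706579907638436373455827253382940645119519134751615536364609199262337323710300113770060993867900894374099893548355352162500032410556055759168552151425822786750186950725058529765580507059200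

/-- The operation. -/
def qop (x y : Fin 24) : Fin 24 := Fin.ofNat 24 (code / 32 ^ (24 * x.1 + y.1) % 32)

/-- The first involution: inversion of matrices. -/
def rho1 (x : Fin 24) : Fin 24 := Fin.ofNat 24 (899228929685213603643676954241076225 / 32 ^ x.1 % 32)

/-- The second involution: the negative of inversion. -/
def rho2 (x : Fin 24) : Fin 24 := Fin.ofNat 24 (944538608299847986312194289006059750 / 32 ^ x.1 % 32)

/-- The first step of a path. -/
def st1 (x : Fin 24) : Fin 24 := Fin.ofNat 24 (667903121175545107007628936259735616 / 32 ^ x.1 % 32)

/-- The second step of a path. -/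
def st2 (x : Fin 24) : Fin 24 := Fin.ofNat 24 (973125429204942739379526893131892800 / 32 ^ x.1 % 32)

/-- The third step of a path. -/
def st3 (x : Fin 24) : Fin 24 := Fin.ofNat 24 (984818244535754528103549045900937248 / 32 ^ x.1 % 32)

lemma q_idem : ∀ x, qop x x = x := by decide +kernel

lemma q_inv1 : ∀ x y, qop (qop x (rho1 y)) y = x := by decide +kernel

lemma q_inv2 : ∀ x y, qop (qop x y) (rho1 y) = x := by decide +kernel

lemma q_dist : ∀ x y z, qop (qop x y) z = qop (qop x z) (qop y z) := by decide +kernel

lemma r1_inv : ∀ x, rho1 (rho1 x) = x := by decide +kernel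

lemma r2_inv : ∀ x, rho2 (rho2 x) = x := by decide +kernel

lemma r1_comm : ∀ x y, rho1 (qop x y) = qop (rho1 x) y := by decide +kernel

lemma r2_comm : ∀ x y, rho2 (qop x y) = qop (rho2 x) y := by decide +kernel

lemma r2_tr : ∀ x y, qop x (rho2 y) = qop x (rho1 y) := by decide +kernel

lemma q_path : ∀ x, qop (qop (qop 0 (st1 x)) (st2 x)) (st3 x) = x := by decide +kernel

/-- There is a (finite) connected quandle that is not involutory and has two different good
involutions. -/
theorem result : ∃ (R : Type) (op : R → R → R), IsQuandle op ∧ IsConnected op ∧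
    ¬ IsInvolutory op ∧ ∃ ρ₁ ρ₂ : R → R, ρ₁ ≠ ρ₂ ∧ IsGoodInvolution op ρ₁ ∧
      IsGoodInvolution op ρ₂ := by
  refine ⟨Fin 24, qop, ⟨q_idem, ?_, q_dist⟩, ?_, ?_, rho1, rho2, ?_, ⟨r1_inv, r1_comm, ?_⟩,
    ⟨r2_inv, r2_comm, ?_⟩⟩
  · intro y
    exact Function.bijective_iff_has_inverse.2 ⟨fun x => qop x (rho1 y),
      fun x => q_inv2 x y, fun x => q_inv1 x y⟩
  · let tr : Fin 24 → Equiv.Perm (Fin 24) := fun y =>
      ⟨fun x => qop x y, fun x => qop x (rho1 y), fun x => q_inv2 x y, fun x => q_inv1 x y⟩
    have htr : ∀ y, tr y ∈ Subgroup.closure {g : Equiv.Perm (Fin 24) |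
        ∃ z, ∀ w, g w = qop w z} := fun y => Subgroup.subset_closure ⟨y, fun w => rfl⟩
    have h0 : ∀ x, ∃ g ∈ Subgroup.closure {g : Equiv.Perm (Fin 24) |
        ∃ z, ∀ w, g w = qop w z}, g 0 = x := by
      intro x
      refine ⟨tr (st3 x) * (tr (st2 x) * tr (st1 x)),
        mul_mem (htr _) (mul_mem (htr _) (htr _)), ?_⟩
      exact q_path x
    intro x y
    obtain ⟨g, hg, hgx⟩ := h0 x
    obtain ⟨h, hh, hhy⟩ := h0 y
    refine ⟨h * g⁻¹, mul_mem hh (inv_mem hg), ?_⟩
    rw [Equiv.Perm.mul_apply, ← hgx]
    have : g⁻¹ (g 0) = 0 := g.symm_apply_apply 0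
    rw [this, hhy]
  · intro h
    have := h 0 2
    revert this
    decide +kernel
  · intro h
    have := congrFun h 0
    revert this
    decide +kernel
  · exact fun x y => ⟨q_inv1 x y, q_inv2 x y⟩
  · exact fun x y => ⟨by rw [r2_tr]; exact q_inv1 x y, by rw [r2_tr]; exact q_inv2 x y⟩

end Pool.Agent.Results.MP_f5f603_al.TwoGoodInvolutions
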